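import Pool.Agent.Lib.MP_bc4313_co.Dense

/-!
Rational distance sets that are not extremely sparse; effective density.
-/

namespace Pool.Agent.Results.MP_bc4313_co.DenseSets

open Pool.Agent.Lib.MP_bc4313_co

/-- Let `S` be a set in the plane with rational distances and `A ≠ B` in `S`, and let
`ballH S A B H` be the set of the points of `S` whose distances from `A` and `B` are rational numbers
with numerator and denominator at most `H`.
(1) If, for all large `H`, `ballH S A B H` has at least `(log H) ^ 1760` points, then there is a line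
or circle `Γ` which contains infinitely many points of `S` and, for all large `H`, all but at most
`100 log log H` points of `ballH S A B H`.
(2) The same for the scales `H i` of a strictly increasing sequence, if there are at least
`(log (H i)) ^ 1760` points at each scale, and `log log (H (i + 1))` is at most `1 / 300` times the
number of points at the scale `H i`.
(3) For each disc (with centre `O` and radius `ρ`) and all large `H`, the disc contains a point `X`
whose distance from each point of `ballH S A B H` is at least `(log H) ^ (-881)`. -/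
theorem result (S : Set (EuclideanSpace ℝ (Fin 2))) (hS : ∀ P ∈ S, ∀ Q ∈ S, ∃ r : ℚ, dist P Q = r)
    (A : EuclideanSpace ℝ (Fin 2)) (hA : A ∈ S) (B : EuclideanSpace ℝ (Fin 2)) (hB : B ∈ S)
    (hAB : A ≠ B) :
    ((∃ H1 : ℕ, ∀ H : ℕ, H1 ≤ H → Real.log H ^ 1760 ≤ (ballH S A B H).ncard) →
      ∃ Γ, LineOrCircle Γ ∧ (S ∩ Γ).Infinite ∧ ∃ H2 : ℕ, ∀ H : ℕ, H2 ≤ H →
        (ballH S A B H \ Γ).Finite ∧
        ((ballH S A B H \ Γ).ncard : ℝ) ≤ 100 * Real.log (Real.log H)) ∧
    (∀ H : ℕ → ℕ, StrictMono H →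
      (∀ i, Real.log (H i) ^ 1760 ≤ (ballH S A B (H i)).ncard) →
      (∀ i, Real.log (Real.log (H (i + 1))) ≤ (ballH S A B (H i)).ncard / 300) →
      ∃ Γ, LineOrCircle Γ ∧ (S ∩ Γ).Infinite ∧ ∃ i0 : ℕ, ∀ i, i0 ≤ i →
        (ballH S A B (H i) \ Γ).Finite ∧
        ((ballH S A B (H i) \ Γ).ncard : ℝ) ≤ 100 * Real.log (Real.log (H i))) ∧
    (∀ (O : EuclideanSpace ℝ (Fin 2)) (ρ : ℝ), 0 < ρ → ∃ H0 : ℕ, ∀ H : ℕ, H0 ≤ H →
      ∃ X : EuclideanSpace ℝ (Fin 2), dist X O ≤ ρ ∧
        ∀ P ∈ ballH S A B H, 1 / Real.log H ^ 881 ≤ dist P X) :=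
  ⟨Dense.all_scales hS hA hB hAB, fun _ h1 h2 h3 => Dense.scales hS hA hB hAB h1 h2 h3,
    fun O _ hρ => Dense.not_dense hS hA hB hAB O hρ⟩

end Pool.Agent.Results.MP_bc4313_co.DenseSets
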