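import Pool.Agent.Lib.MP_bc4313_co.Final

/-!
Counting the points of bounded height of a rational distance set.
-/

namespace Pool.Agent.Results.MP_bc4313_co.HeightCount

open Pool.Agent.Lib.MP_bc4313_co

/-- Let `S` be a set in the plane with rational distances, `A ≠ B` in `S`, `k ≥ 1`, and let
`ballH S A B H` be the set of the points of `S` whose distances from `A` and `B` are rational numbers
with numerator and denominator at most `H`. If each line and each circle misses at least `48 (k + 1)`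
points of `ballH S A B H` (and `H ≥ 2` bounds the height of the distance of `A` and `B`), then
`ballH S A B H` has at most `(2 ^ k log H) ^ 879 * H ^ (3402 / 2 ^ k)` points. If each line and each
circle misses at least `48 (k + 1)` points of `S`, then the same bound holds for all large `H`. -/
theorem result (S : Set (EuclideanSpace ℝ (Fin 2))) (hS : ∀ P ∈ S, ∀ Q ∈ S, ∃ r : ℚ, dist P Q = r)
    (A : EuclideanSpace ℝ (Fin 2)) (hA : A ∈ S) (B : EuclideanSpace ℝ (Fin 2)) (hB : B ∈ S)
    (hAB : A ≠ B) (k : ℕ) (hk : 1 ≤ k) :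
    (∀ H : ℕ, 2 ≤ H → Ht (dist A B) H →
      (∀ Γ, LineOrCircle Γ → ((48 * (k + 1) : ℕ) : ℕ∞) ≤ (ballH S A B H \ Γ).encard) →
      (ballH S A B H).Finite ∧ ((ballH S A B H).ncard : ℝ) ≤
        (2 ^ k * Real.log H) ^ 879 * (H : ℝ) ^ ((3402 : ℝ) / 2 ^ k)) ∧
    ((∀ Γ, LineOrCircle Γ → ((48 * (k + 1) : ℕ) : ℕ∞) ≤ (S \ Γ).encard) →
      ∃ H0 : ℕ, ∀ H : ℕ, H0 ≤ H → (ballH S A B H).Finite ∧ ((ballH S A B H).ncard : ℝ) ≤
        (2 ^ k * Real.log H) ^ 879 * (H : ℝ) ^ ((3402 : ℝ) / 2 ^ k)) :=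
  count_final hS hA hB hAB hk

end Pool.Agent.Results.MP_bc4313_co.HeightCount
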