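import Pool.Agent.Lib.MP_bc4313_co.Main

/-!
Infinite rational distance sets with infinitely many points whose distances from two points of the
set have a positive proportion of their height at infinity and at given non-split primes.
-/

namespace Pool.Agent.Results.MP_bc4313_co.LocalHeights

open Pool.Agent.Lib.MP_bc4313_co

/-- Let `S` be a rational distance set in the plane, `N ≠ 0` a natural number with non-split prime
factors, `A ≠ B` two points of `S` and `K` a natural number. If for infinitely many points `P` of `S`
the product of the heights of `|PA|` and `|PB|` is at most the `K`-th power of their parts at infinity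
and at the primes dividing `N` then all but finitely many points of `S` lie on one line or on one
circle. -/
theorem result (S : Set (EuclideanSpace ℝ (Fin 2))) (hS : RationalDistances S) (N : ℕ) (hN : N ≠ 0)
    (hns : NonSplit N S) (A B : EuclideanSpace ℝ (Fin 2)) (hA : A ∈ S) (hB : B ∈ S) (hAB : A ≠ B)
    (K : ℕ)
    (hinf : {P ∈ S | P ≠ A ∧ P ≠ B ∧ ∃ a b : ℚ, dist P A = a ∧ dist P B = b ∧
      (HH a * HH b : ℝ) ≤ (loc N a * loc N b) ^ K}.Infinite) :
    (∃ α β γ : ℝ, (α ≠ 0 ∨ β ≠ 0) ∧ {P ∈ S | α * P 0 + β * P 1 + γ ≠ 0}.Finite) ∨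
      ∃ c : EuclideanSpace ℝ (Fin 2), ∃ r : ℝ, 0 < r ∧ (S \ Metric.sphere c r).Finite :=
  main_curve hS hN hns hA hB hAB K hinf

end Pool.Agent.Results.MP_bc4313_co.LocalHeights
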