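import Pool.Agent.Lib.MP_bc4313_co.Off

/-!
Infinite sets in the plane with all distances in `ℤ[1/N]`.
-/

namespace Pool.Agent.Results.MP_bc4313_co.SIntegral

open Pool.Agent.Lib.MP_bc4313_co

/-- Let `S` be an infinite set in the plane with all distances in `ℤ[1/N]`. Assume that the prime
factors of `N` are non-split for `S` or that infinitely many points of `S` lie on a line. Then there is
a line such that the number of points of `S` off it is at most `2 ⌊C / 2⌋`, where `C` is the middle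
binomial coefficient of `ω(N) + 1`: it is `0` for `N = 1` and at most `2` if `N` has one or two
prime factors. -/
theorem result (S : Set (EuclideanSpace ℝ (Fin 2))) (hinf : S.Infinite) (N : ℕ) (hN : N ≠ 0)
    (hS : ∀ P ∈ S, ∀ Q ∈ S, ∃ (k : ℕ) (z : ℤ), (N : ℝ) ^ k * dist P Q = z)
    (h : NonSplit N S ∨ ∃ α β γ : ℝ, (α ≠ 0 ∨ β ≠ 0) ∧
      {P ∈ S | α * P 0 + β * P 1 + γ = 0}.Infinite) :
    ∃ α β γ : ℝ, (α ≠ 0 ∨ β ≠ 0) ∧ {P ∈ S | α * P 0 + β * P 1 + γ ≠ 0}.Finite ∧
      {P ∈ S | α * P 0 + β * P 1 + γ ≠ 0}.ncard ≤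
        2 * ((N.primeFactors.card + 1).choose ((N.primeFactors.card + 1) / 2) / 2) :=
  integral_count hinf hN hS h

end Pool.Agent.Results.MP_bc4313_co.SIntegral
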